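import Pool.Agent.Helper48.H3.Fix3
import Pool.Agent.Helper15.GT.Ring

/-! CCM v10 (MP_b8862a_ag), constructor `dec`: fixed fields of a finite group, all degrees. -/

set_option autoImplicit false

namespace Pool.Agent.Helper28.CD

open IntermediateField Pool.Agent.Helper75.QC

section

variable {Ω K : Type} [Field Ω] [Field K] [Algebra Ω K]
variable {A : Type*} [Group A] [Finite A] (ρ : A →* (K ≃ₐ[Ω] K))

theorem finite_map (H : Subgroup A) : Finite (H.map ρ) :=
  Finite.of_surjective (fun h : H => (⟨ρ h, h, h.2, rfl⟩ : H.map ρ)) (by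
    rintro ⟨_, a, ha, rfl⟩
    exact ⟨⟨a, ha⟩, rfl⟩)

/-- `F` is the fixed field of `H`, embedded by `φ`. -/
theorem range_eq {F : Type} [Field F] [Algebra Ω F] (H : Subgroup A) (φ : F →ₐ[Ω] K)
    (hφ : ∀ z : K, z ∈ Set.range φ ↔ ∀ g ∈ H, ρ g z = z) :
    φ.fieldRange = fixedField (H.map ρ) := by
  ext z
  rw [mem_fixedField_iff]
  have h1 : z ∈ φ.fieldRange ↔ z ∈ Set.range φ := Iff.rfl
  rw [h1, hφ]
  constructor
  · rintro h _ ⟨a, ha, rfl⟩
    exact h a ha
  · exact fun h a ha => h _ ⟨a, ha, rfl⟩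

/-- `K` is algebraic over the fixed field -/
theorem algebraic {F : Type} [Field F] [Algebra Ω F] (H : Subgroup A) (φ : F →ₐ[Ω] K)
    (hφ : ∀ z : K, z ∈ Set.range φ ↔ ∀ g ∈ H, ρ g z = z) (a : K) :
    IsAlgebraic φ.fieldRange a := by
  have h1 := range_eq ρ H φ hφ
  rw [h1]
  have : Finite (H.map ρ) := finite_map ρ H
  have h0 := (Pool.Agent.Helper48.H3.galois_fixed (H.map ρ)).1
  exact Algebra.IsAlgebraic.isAlgebraic a

variable {L : Type} [Field L] (T : Cohomology Ω L)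

/-- classes which are fixed by the subgroup -/
theorem descent {F : Type} [Field F] [Algebra Ω F] (H : Subgroup A) (φ : F →ₐ[Ω] K)
    (hφ : ∀ z : K, z ∈ Set.range φ ↔ ∀ g ∈ H, ρ g z = z) (r : ℕ)
    (t : T.H r K) (ht : ∀ a ∈ H, T.map r (ρ a : K →ₐ[Ω] K) t = t) :
    ∃ s : T.H r F, T.map r φ s = t := by
  have : Finite (H.map ρ) := finite_map ρ H
  obtain ⟨h0, h1, h2⟩ := Pool.Agent.Helper48.H3.galois_fixed (H.map ρ)
  obtain ⟨s, hs⟩ := T.descent r K (fixedField (H.map ρ)) t fun τ => by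
    obtain ⟨_, ⟨a, ha, rfl⟩, hτ⟩ := h2 τ
    have h3 : τ.restrictScalars Ω = (ρ a : K →ₐ[Ω] K) := AlgHom.ext hτ
    rw [h3]
    exact ht a ha
  -- the inverse of `φ`
  let e : F ≃ₐ[Ω] φ.fieldRange := AlgEquiv.ofInjectiveField φ
  let ι : fixedField (H.map ρ) →ₐ[Ω] φ.fieldRange :=
    IntermediateField.inclusion (range_eq ρ H φ hφ).ge
  let ψ : fixedField (H.map ρ) →ₐ[Ω] F := (e.symm : φ.fieldRange →ₐ[Ω] F).comp ι
  have hψ : φ.comp ψ = (fixedField (H.map ρ)).val := by
    ext z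
    have h4 : (e (e.symm (ι z)) : K) = φ (e.symm (ι z)) := rfl
    rw [AlgEquiv.apply_symm_apply] at h4
    exact h4.symm
  refine ⟨T.map r ψ s, ?_⟩
  rw [← LinearMap.comp_apply, ← T.map_comp, hψ]
  exact hs

/-- the representation in the cohomology -/
noncomputable def rep (r : ℕ) : A →* Module.End L (T.H r K) where
  toFun := fun a => T.map r (ρ a : K →ₐ[Ω] K)
  map_one' := by
    have h1 : ((ρ 1 : K ≃ₐ[Ω] K) : K →ₐ[Ω] K) = AlgHom.id Ω K := by
      rw [map_one]
      rfl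
    rw [h1, T.map_id]
    rfl
  map_mul' := fun a b => by
    have h1 : ((ρ (a * b) : K ≃ₐ[Ω] K) : K →ₐ[Ω] K) =
        (ρ a : K →ₐ[Ω] K).comp (ρ b : K →ₐ[Ω] K) := by
      rw [map_mul]
      rfl
    rw [h1, T.map_comp]
    rfl

/-- the action of the rational group ring -/
noncomputable def ringHom [CharZero L] (r : ℕ) : MonoidAlgebra ℚ A →+* Module.End L (T.H r K) :=
  (MonoidAlgebra.lift L (Module.End L (T.H r K)) A (rep ρ T r)).toRingHom.comp
    (MonoidAlgebra.mapRingHom A (algebraMap ℚ L))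

theorem ringHom_of [CharZero L] (r : ℕ) (a : A) (t : T.H r K) :
    ringHom ρ T r (MonoidAlgebra.of ℚ A a) t = T.map r (ρ a : K →ₐ[Ω] K) t := by
  have h1 : ringHom ρ T r (MonoidAlgebra.of ℚ A a) = rep ρ T r a := by
    unfold ringHom
    simp
  rw [h1]
  rfl

theorem ringHom_eG [CharZero L] (r : ℕ) (Γ : Subgroup A) [Fintype Γ] (t : T.H r K) :
    ringHom ρ T r (Pool.Agent.Helper15.GT.eG Γ) t =
      ∑ a : Γ, T.map r (ρ (a : A) : K →ₐ[Ω] K) t := by
  unfold Pool.Agent.Helper15.GT.eG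
  rw [finsum_eq_sum_of_fintype, map_sum, LinearMap.sum_apply]
  exact Finset.sum_congr rfl fun a _ => ringHom_of ρ T r _ t

/-- Endomorphisms which commute with the maps of fields commute with the group ring. -/
theorem ringHom_comm [CharZero L] (r : ℕ) (α : T.H r K →ₗ[L] T.H r K)
    (hα : ∀ (g : K →ₐ[Ω] K) (t : T.H r K), T.map r g (α t) = α (T.map r g t))
    (x : MonoidAlgebra ℚ A) (t : T.H r K) :
    ringHom ρ T r x (α t) = α (ringHom ρ T r x t) := by
  induction x using MonoidAlgebra.induction_on with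
  | of a => rw [ringHom_of, ringHom_of, hα]
  | add x y hx hy => rw [map_add, LinearMap.add_apply, LinearMap.add_apply, hx, hy, map_add]
  | smul c x hx =>
    have h0 : ringHom ρ T r (algebraMap ℚ (MonoidAlgebra ℚ A) c) =
        algebraMap L (Module.End L (T.H r K)) (c : L) := by
      unfold ringHom
      rw [MonoidAlgebra.coe_algebraMap]
      simp [Algebra.algebraMap_eq_smul_one]
    have h1 : ringHom ρ T r (c • x) = (c : L) • ringHom ρ T r x := by
      rw [Algebra.smul_def, map_mul, h0, ← Algebra.smul_def]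
    rw [h1, LinearMap.smul_apply, LinearMap.smul_apply, hx, map_smul]

end

/-- **Fixed fields.** Let the finite group `A` act on `K`, and let `e_H = ∑ Y_i e_{Γ_i} X_i` in the
group ring. If `α` is the identity on the classes of the fixed fields of the `Γ_i`, it is the
identity on those of the fixed field `F` of `H`. -/
theorem act_dec {Ω L : Type} [Field Ω] [Field L] [CharZero L] (T : Cohomology Ω L) (r : ℕ)
    (α : ∀ (K : Type) [Field K] [Algebra Ω K], T.H r K →ₗ[L] T.H r K)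
    (hα : ∀ {K K' : Type} [Field K] [Algebra Ω K] [Field K'] [Algebra Ω K']
      (g : K →ₐ[Ω] K') (t : T.H r K), T.map r g (α K t) = α K' (T.map r g t))
    {F K : Type} [Field F] [Algebra Ω F] [Field K] [Algebra Ω K]
    {A : Type*} [Group A] [Finite A] (ρ : A →* (K ≃ₐ[Ω] K)) (H : Subgroup A) (φ : F →ₐ[Ω] K)
    (hφ : ∀ z : K, z ∈ Set.range φ ↔ ∀ g ∈ H, ρ g z = z) {m : ℕ} (Γ : Fin m → Subgroup A)
    (X Y : Fin m → MonoidAlgebra ℚ A)
    (hΓ : Pool.Agent.Helper15.GT.eG H = ∑ i, Y i * Pool.Agent.Helper15.GT.eG (Γ i) * X i)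
    (E : Fin m → Type) [∀ i, Field (E i)] [∀ i, Algebra Ω (E i)] (ψ : ∀ i, E i →ₐ[Ω] K)
    (hψ : ∀ i z, z ∈ Set.range (ψ i) ↔ ∀ g ∈ Γ i, ρ g z = z)
    (h : ∀ i, ∀ t : T.H r (E i), α (E i) t = t) (t : T.H r F) : α F t = t := by
  classical
  have := Fintype.ofFinite A
  apply T.inj r φ (algebraic ρ H φ hφ)
  rw [hα]
  set u := T.map r φ t with hu
  -- `e_H u = |H| u`
  have h1 : ringHom ρ T r (Pool.Agent.Helper15.GT.eG H) u = (Fintype.card H : L) • u := by
    rw [ringHom_eG]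
    have h2 : ∀ a : H, T.map r (ρ (a : A) : K →ₐ[Ω] K) u = u := by
      intro a
      rw [hu, ← LinearMap.comp_apply, ← T.map_comp]
      congr 2
      ext z
      exact (hφ (φ z)).1 ⟨z, rfl⟩ a a.2
    rw [Finset.sum_congr rfl fun a _ => h2 a, Finset.sum_const, Finset.card_univ, Nat.cast_smul_eq_nsmul]
  -- the classes `e_{Γ_i} v` are fixed
  have h3 : ∀ i (v : T.H r K), α K (ringHom ρ T r (Pool.Agent.Helper15.GT.eG (Γ i)) v) =
      ringHom ρ T r (Pool.Agent.Helper15.GT.eG (Γ i)) v := by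
    intro i v
    obtain ⟨s, hs⟩ := descent ρ T (Γ i) (ψ i) (hψ i) r
      (ringHom ρ T r (Pool.Agent.Helper15.GT.eG (Γ i)) v) (fun a ha => by
        rw [ringHom_eG, map_sum]
        refine Fintype.sum_equiv (Equiv.mulLeft (⟨a, ha⟩ : Γ i)) _ _ fun b => ?_
        rw [← LinearMap.comp_apply, ← T.map_comp]
        have h4 : (ρ ((Equiv.mulLeft (⟨a, ha⟩ : Γ i)) b : A) : K →ₐ[Ω] K) =
            (ρ a : K →ₐ[Ω] K).comp (ρ (b : A) : K →ₐ[Ω] K) := by
          ext z
          show ρ (a * (b : A)) z = ρ a (ρ b z)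
          rw [map_mul]
          rfl
        rw [h4])
    rw [← hs, ← hα, h i]
  have h5 : ringHom ρ T r (Pool.Agent.Helper15.GT.eG H) u =
      ∑ i, ringHom ρ T r (Y i) (ringHom ρ T r (Pool.Agent.Helper15.GT.eG (Γ i))
        (ringHom ρ T r (X i) u)) := by
    rw [hΓ, map_sum, LinearMap.sum_apply]
    refine Finset.sum_congr rfl fun i _ => ?_
    rw [map_mul, map_mul]
    rfl
  have h6 : α K (ringHom ρ T r (Pool.Agent.Helper15.GT.eG H) u) =
      ringHom ρ T r (Pool.Agent.Helper15.GT.eG H) u := by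
    rw [h5, map_sum]
    refine Finset.sum_congr rfl fun i _ => ?_
    rw [← ringHom_comm ρ T r (α K) (fun g t => hα g t), h3 i]
  rw [h1, map_smul] at h6
  have h7 : (Fintype.card H : L) ≠ 0 := Nat.cast_ne_zero.2 Fintype.card_ne_zero
  exact smul_right_injective _ h7 h6

end Pool.Agent.Helper28.CD
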